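import Pool.Agent.Helper68.ETSP.ClosureAux
import Pool.Agent.Helper32.ETSP.Machine

/-!
# ST-7: NP is closed under polynomial time reductions with a certificate
-/

set_option autoImplicit false

namespace Pool.Agent.Helper73.ETSP

open N68a2faeb Pool.Agent.Helper36.PT

variable {α β γ : Type} [Enc α] [Enc β] [Enc γ]

theorem np_closure [Dec α] [Dec γ] [InjEnc β] (S : Set α) (T : Set β)
    (f : α × γ → β) (Q : α × γ → Prop) (hf : PolyTime f) (hQ : PolyTime Q) (e : ℕ)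
    (h1 : ∀ a ∈ S, ∃ c, esz c ≤ (esz a + 2) ^ e ∧ Q (a, c) ∧ f (a, c) ∈ T)
    (h2 : ∀ a c, Q (a, c) → f (a, c) ∈ T → a ∈ S) (hT : langE T ∈ NP) : langE S ∈ NP :=
  np_closure_aux (fun h => polyTime_of_TM h) S T f Q hf hQ e h1 h2 hT

end Pool.Agent.Helper73.ETSP
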