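import Pool.Agent.Helper68.ETSP.Codec

/-!
# ST-7, first part: the closure of NP under reductions with a certificate, given that functions
computed by Turing machines in polynomial time are polynomial time functions of the library
-/

set_option autoImplicit false

namespace Pool.Agent.Helper73.ETSP

open N68a2faeb Pool.Agent.Helper36.PT

variable {α β γ : Type} [Enc α] [Enc β] [Enc γ]

theorem delimit_eq_fr (w : List Bool) : N487b59b3.delimit w = fr w := by
  induction w with
  | nil => rfl
  | cons b w ih =>
    change true :: b :: N487b59b3.delimit w = true :: b :: fr w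
    rw [ih]

theorem bitEncode_list (l : List Bool) : N487b59b3.bitEncode l = enc l := by
  induction l with
  | nil => rfl
  | cons b l ih =>
    change N487b59b3.delimit [b] ++ N487b59b3.bitEncode l = fr [b] ++ enc l
    rw [ih, delimit_eq_fr]

theorem encode_pair_eq : (N487b59b3.toEncoding (α := List Bool × List Bool)).encode =
    (enc : List Bool × List Bool → List Bool) := by
  funext p
  change N487b59b3.delimit (N487b59b3.bitEncode p.1) ++ N487b59b3.bitEncode p.2 =
    fr (enc p.1) ++ enc p.2
  rw [delimit_eq_fr, bitEncode_list, bitEncode_list]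

theorem encode_bool_eq : (N487b59b3.toEncoding (α := Bool)).encode =
    (enc : Bool → List Bool) := rfl

theorem isPolyTime_iff_TM (R : List Bool × List Bool → Bool) : IsPolyTime R ↔
    Nonempty (Turing.TM2ComputableInPolyTime (enc : List Bool × List Bool → List Bool)
      (enc : Bool → List Bool) R) := by
  unfold IsPolyTime IsPolyTimeWithEncoding
  rw [encode_pair_eq, encode_bool_eq]

theorem polyEval_mono (p : Polynomial ℕ) {m n : ℕ} (h : m ≤ n) : p.eval m ≤ p.eval n := by
  rw [Polynomial.eval_eq_sum, Polynomial.eval_eq_sum]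
  exact Finset.sum_le_sum fun i _ => Nat.mul_le_mul_left _ (Nat.pow_le_pow_left h i)

theorem polyTime_polyEval (p : Polynomial ℕ) {n : α → ℕ} (hn : PolyTime n) :
    PolyTime (fun a => p.eval (n a)) := by
  induction p using Polynomial.induction_on' with
  | add p q hp hq =>
    simp only [Polynomial.eval_add]
    fun_prop
  | monomial k c =>
    simp only [Polynomial.eval_monomial]
    fun_prop

/-- the certificate of the reduction: the code of `c` and a certificate of the image -/
theorem np_closure_aux (hTM : ∀ {g : List Bool × List Bool → Bool},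
      Nonempty (Turing.TM2ComputableInPolyTime (enc : List Bool × List Bool → List Bool)
        (enc : Bool → List Bool) g) → PolyTime g)
    [Dec α] [Dec γ] [InjEnc β] (S : Set α) (T : Set β)
    (f : α × γ → β) (Q : α × γ → Prop) (hf : PolyTime f) (hQ : PolyTime Q) (e : ℕ)
    (h1 : ∀ a ∈ S, ∃ c, esz c ≤ (esz a + 2) ^ e ∧ Q (a, c) ∧ f (a, c) ∈ T)
    (h2 : ∀ a c, Q (a, c) → f (a, c) ∈ T → a ∈ S) (hT : langE T ∈ NP) : langE S ∈ NP := by
  classical
  obtain ⟨p, R, hR, hRT⟩ := hT
  have hR' : PolyTime R := hTM ((isPolyTime_iff_TM R).1 hR)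
  obtain ⟨da, hda, eda⟩ := Dec.out (α := α)
  obtain ⟨dc, hdc, edc⟩ := Dec.out (α := γ)
  obtain ⟨d, hd⟩ := hf.bdd
  set A : List Bool × List Bool → α := fun q => da ⟨q.1⟩ with hA
  set C : List Bool × List Bool → γ := fun q => dc ⟨hdF q.2⟩ with hC
  have pA : PolyTime A := hda.comp (by fun_prop)
  have pC : PolyTime C := hdc.comp (by fun_prop)
  have pAC : PolyTime (fun q => (A q, C q)) := pA.pair pC
  have pF : PolyTime (fun q => f (A q, C q)) := hf.comp pAC
  have pQ : PolyTime (fun q => Q (A q, C q)) := hQ.comp pAC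
  have pY : PolyTime (fun q => (Word.mk (enc (f (A q, C q)))).w) :=
    PolyTime.wordToList' (PolyTime.toWord pF)
  have pX : PolyTime (fun q => (Word.mk (enc (A q))).w) :=
    PolyTime.wordToList' (PolyTime.toWord pA)
  have pT : PolyTime (fun q : List Bool × List Bool => tlF q.2) := by fun_prop
  have pR : PolyTime (fun q : List Bool × List Bool =>
      R ((Word.mk (enc (f (A q, C q)))).w, tlF q.2)) := hR'.comp (pY.pair pT)
  have pL : PolyTime (fun q : List Bool × List Bool =>
      p.eval ((Word.mk (enc (f (A q, C q)))).w).length) := polyTime_polyEval p (PolyTime.length pY)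
  set V : List Bool × List Bool → Bool := fun q => Pool.Agent.Helper36.PT.dec ((Word.mk (enc (A q))).w = q.1 ∧
    Q (A q, C q) ∧ (tlF q.2).length ≤ p.eval ((Word.mk (enc (f (A q, C q)))).w).length ∧
      R ((Word.mk (enc (f (A q, C q)))).w, tlF q.2) = true) with hV
  have pV : PolyTime V := by
    rw [hV]
    have p1 : PolyTime (fun q : List Bool × List Bool => (Word.mk (enc (A q))).w = q.1) :=
      PolyTime.pEqList pX PolyTime.fst
    have p2 : PolyTime (fun q : List Bool × List Bool => (tlF q.2).length ≤
        p.eval ((Word.mk (enc (f (A q, C q)))).w).length) :=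
      PolyTime.pLe (PolyTime.length pT) pL
    have p3 : PolyTime (fun q : List Bool × List Bool =>
        R ((Word.mk (enc (f (A q, C q)))).w, tlF q.2) = true) := PolyTime.pBool pR
    exact PolyTime.dec' (PolyTime.pAnd p1 (PolyTime.pAnd pQ (PolyTime.pAnd p2 p3)))
  refine ⟨2 * (Polynomial.X + 2) ^ e + 1 +
    p.comp ((2 * Polynomial.X + 1 + (Polynomial.X + 2) ^ e + 2) ^ d), V,
    (isPolyTime_iff_TM V).2 pV.toTM, fun x => ?_⟩
  constructor
  · intro hx
    obtain ⟨a, haS, rfl⟩ : ∃ a ∈ S, enc a = x := by
      unfold langE at hx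
      simpa using hx
    obtain ⟨c, hc1, hc2, hc3⟩ := h1 a haS
    have hT' : langE T (enc (f (a, c))) = true := by
      unfold langE
      exact decide_eq_true ⟨_, hc3, rfl⟩
    obtain ⟨w, hw1, hw2⟩ := (hRT _).1 hT'
    refine ⟨fr (enc c) ++ w, ?_, ?_⟩
    · have hs : (enc (f (a, c))).length ≤ (2 * esz a + 1 + (esz a + 2) ^ e + 2) ^ d := by
        refine (hd (a, c)).trans (Nat.pow_le_pow_left ?_ d)
        rw [esz_pair]
        omega
      have hw3 := hw1.trans (polyEval_mono p hs)
      rw [List.length_append, length_fr]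
      simp only [Polynomial.eval_add, Polynomial.eval_mul, Polynomial.eval_pow, Polynomial.eval_X,
        Polynomial.eval_ofNat, Polynomial.eval_comp, Polynomial.eval_one]
      have e1 : (enc c).length = esz c := rfl
      have e2 : (enc a).length = esz a := rfl
      rw [e1, e2]
      omega
    · rw [hV]
      refine (dec_eq_true _).2 ?_
      have e1 : A (enc a, fr (enc c) ++ w) = a := eda a
      have e2 : C (enc a, fr (enc c) ++ w) = c := by
        rw [hC]
        change dc ⟨hdF (fr (enc c) ++ w)⟩ = c
        rw [hdF_fr, edc]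
      rw [e1, e2]
      change enc a = enc a ∧ Q (a, c) ∧ (tlF (fr (enc c) ++ w)).length ≤
        p.eval (enc (f (a, c))).length ∧ R (enc (f (a, c)), tlF (fr (enc c) ++ w)) = true
      rw [tlF_fr]
      exact ⟨rfl, hc2, hw1, hw2⟩
  · rintro ⟨w, _, hw⟩
    rw [hV] at hw
    obtain ⟨k1, k2, k3, k4⟩ := (dec_eq_true _).1 hw
    have hT' : langE T (enc (f (A (x, w), C (x, w)))) = true := (hRT _).2 ⟨_, k3, k4⟩
    obtain ⟨b, hbT, hb⟩ : ∃ b ∈ T, enc b = enc (f (A (x, w), C (x, w))) := by
      unfold langE at hT'
      simpa using hT'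
    have hb' := InjEnc.inj hb
    rw [hb'] at hbT
    have haS := h2 _ _ k2 hbT
    unfold langE
    exact decide_eq_true ⟨_, haS, k1⟩

end Pool.Agent.Helper73.ETSP
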