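import Pool.Agent.Helper73.ETSP.Defs

/-!
# ST-6: decoding of words, pairs and lists in polynomial time
-/

set_option autoImplicit false

namespace Pool.Agent.Helper73.ETSP

open N68a2faeb Pool.Agent.Helper36.PT

variable {α β γ : Type} [Enc α] [Enc β] [Enc γ]

instance : Dec Word := ⟨fun w => w, PolyTime.id, fun _ => rfl⟩

instance : Dec Bool := ⟨fun w => w.w.headD false, by fun_prop, fun _ => rfl⟩

instance : Dec ℕ := ⟨fun w => w.w.length, by fun_prop, fun a => esz_nat a⟩

/-- the number of letters of the first frame of a word -/
noncomputable def frLen (w : List Bool) : ℕ :=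
  mu (w.length + 1) (fun i => w.getD (2 * i) false = false)

/-- the word in the first frame -/
noncomputable def hdF (w : List Bool) : List Bool :=
  (List.range (frLen w)).map (fun j => w.getD (2 * j + 1) false)

/-- the rest of the word, after the first frame -/
noncomputable def tlF (w : List Bool) : List Bool := w.drop (2 * frLen w + 1)

@[fun_prop]
theorem polyTime_frLen {f : α → List Bool} (hf : PolyTime f) :
    PolyTime (fun a => frLen (f a)) := by
  unfold frLen
  fun_prop

@[fun_prop]
theorem polyTime_hdF {f : α → List Bool} (hf : PolyTime f) :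
    PolyTime (fun a => hdF (f a)) := by
  unfold hdF
  fun_prop

@[fun_prop]
theorem polyTime_tlF {f : α → List Bool} (hf : PolyTime f) :
    PolyTime (fun a => tlF (f a)) := by
  unfold tlF
  fun_prop

theorem getD_fr (u v : List Bool) (i : ℕ) :
    (i < u.length → (fr u ++ v).getD (2 * i) false = true ∧
      (fr u ++ v).getD (2 * i + 1) false = u.getD i false) ∧
    (i = u.length → (fr u ++ v).getD (2 * i) false = false) := by
  induction u generalizing i with
  | nil =>
    refine ⟨fun h => absurd h (by simp), fun h => ?_⟩
    subst h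
    rfl
  | cons c u ih =>
    cases i with
    | zero =>
      exact ⟨fun _ => ⟨rfl, rfl⟩, fun h => absurd h (by simp)⟩
    | succ i =>
      have e1 : (fr (c :: u) ++ v).getD (2 * (i + 1)) false = (fr u ++ v).getD (2 * i) false := by
        rw [show 2 * (i + 1) = 2 * i + 1 + 1 by ring]
        rfl
      have e2 : (fr (c :: u) ++ v).getD (2 * (i + 1) + 1) false =
          (fr u ++ v).getD (2 * i + 1) false := by
        rw [show 2 * (i + 1) + 1 = 2 * i + 1 + 1 + 1 by ring]
        rfl
      have e3 : (c :: u).getD (i + 1) false = u.getD i false := rfl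
      rw [e1, e2, e3]
      obtain ⟨h1, h2⟩ := ih i
      refine ⟨fun h => h1 ?_, fun h => h2 ?_⟩
      · rw [List.length_cons] at h
        omega
      · rw [List.length_cons] at h
        omega

theorem frLen_fr (u v : List Bool) : frLen (fr u ++ v) = u.length := by
  unfold frLen
  have h0 : u.length < (fr u ++ v).length + 1 := by
    rw [List.length_append, length_fr]
    omega
  have h1 : (fr u ++ v).getD (2 * u.length) false = false := (getD_fr u v u.length).2 rfl
  obtain ⟨h2, h3⟩ := mu_spec (n := (fr u ++ v).length + 1)
    (Q := fun i => (fr u ++ v).getD (2 * i) false = false) ⟨u.length, h0, h1⟩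
  rcases lt_trichotomy (mu ((fr u ++ v).length + 1)
    (fun i => (fr u ++ v).getD (2 * i) false = false)) u.length with h4 | h4 | h4
  · have h5 := ((getD_fr u v _).1 h4).1
    rw [h3] at h5
    exact absurd h5 (by decide)
  · exact h4
  · exact absurd h1 (mu_min h4)

theorem hdF_fr (u v : List Bool) : hdF (fr u ++ v) = u := by
  unfold hdF
  rw [frLen_fr]
  refine List.ext_getElem (by simp) fun i hi hi' => ?_
  rw [List.getElem_map, List.getElem_range]
  rw [((getD_fr u v i).1 hi').2, List.getD_eq_getElem _ _ hi']

theorem tlF_fr (u v : List Bool) : tlF (fr u ++ v) = v := by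
  unfold tlF
  rw [frLen_fr, ← length_fr, List.drop_left]

instance [Dec α] [Dec β] : Dec (α × β) := by
  obtain ⟨d1, h1, e1⟩ := Dec.out (α := α)
  obtain ⟨d2, h2, e2⟩ := Dec.out (α := β)
  refine ⟨fun w => (d1 ⟨hdF w.w⟩, d2 ⟨tlF w.w⟩), ?_, fun a => ?_⟩
  · exact (h1.comp (by fun_prop)).pair (h2.comp (by fun_prop))
  · change (d1 ⟨hdF (fr (enc a.1) ++ enc a.2)⟩, d2 ⟨tlF (fr (enc a.1) ++ enc a.2)⟩) = a
    rw [hdF_fr, tlF_fr, e1, e2]

theorem esz_tlF_iter (w : List Bool) (i : ℕ) : esz (tlF^[i] w) ≤ esz w := by
  induction i with
  | zero => exact le_rfl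
  | succ i ih =>
    rw [Function.iterate_succ_apply']
    refine le_trans ?_ ih
    exact F1.esz_drop_le _ _

@[fun_prop]
theorem polyTime_tlF_iter {f : α → List Bool} {n : α → ℕ} (hf : PolyTime f) (hn : PolyTime n) :
    PolyTime (fun a => tlF^[n a] (f a)) := by
  have h : PolyTime (fun p : α × List Bool => tlF p.2) := by fun_prop
  exact PolyTime.iterate (h := fun p : α × List Bool => tlF p.2) hn hf h
    ⟨fun a => esz (f a), hf.bdd, fun a i _ => esz_tlF_iter _ _⟩

theorem tlF_iter_encL (l : List α) (i : ℕ) : tlF^[i] (encL l) = encL (l.drop i) := by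
  induction i generalizing l with
  | zero => rfl
  | succ i ih =>
    rw [Function.iterate_succ_apply]
    cases l with
    | nil =>
      have : tlF (encL ([] : List α)) = encL ([] : List α) := by
        change List.drop _ [] = []
        exact List.drop_nil
      rw [this, ih]
      simp
    | cons a l =>
      change tlF^[i] (tlF (fr (enc a) ++ encL l)) = _
      rw [tlF_fr, ih]
      rfl

theorem encL_eq_nil {l : List α} : encL l = [] ↔ l = [] := by
  constructor
  · intro h
    cases l with
    | nil => rfl
    | cons a l =>
      exfalso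
      have h1 : (fr (enc a) ++ encL l).length = 0 := by
        rw [show fr (enc a) ++ encL l = [] from h]
        rfl
      rw [List.length_append, length_fr] at h1
      omega
  · rintro rfl
    rfl

instance [Dec α] : Dec (List α) := by
  obtain ⟨d1, h1, e1⟩ := Dec.out (α := α)
  refine ⟨fun w => ((List.range w.w.length).filter
    (fun i => !(tlF^[i] w.w).isEmpty)).map (fun i => d1 ⟨hdF (tlF^[i] w.w)⟩), ?_, fun l => ?_⟩
  · have h2 : PolyTime (fun p : Word × ℕ => d1 ⟨hdF (tlF^[p.2] p.1.w)⟩) :=
      h1.comp (by fun_prop)
    fun_prop
  · change ((List.range (encL l).length).filter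
      (fun i => !(tlF^[i] (encL l)).isEmpty)).map (fun i => d1 ⟨hdF (tlF^[i] (encL l))⟩) = l
    have hlen : l.length ≤ (encL l).length := length_le_esz l
    have h3 : (List.range (encL l).length).filter (fun i => !(tlF^[i] (encL l)).isEmpty) =
        List.range l.length := by
      have h4 : ∀ i ∈ List.range (encL l).length,
          (!(tlF^[i] (encL l)).isEmpty) = decide (i < l.length) := by
        intro i _
        rw [tlF_iter_encL]
        rw [Bool.eq_iff_iff]
        rw [Bool.not_eq_true', decide_eq_true_eq, List.isEmpty_eq_false_iff, ne_eq, encL_eq_nil,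
          List.drop_eq_nil_iff, not_le]
      rw [List.filter_congr h4]
      obtain ⟨k, hk⟩ := Nat.exists_eq_add_of_le hlen
      rw [hk, List.range_add, List.filter_append]
      have h5 : (List.range l.length).filter (fun i => decide (i < l.length)) =
          List.range l.length := by
        rw [List.filter_eq_self]
        intro i hi
        rw [List.mem_range] at hi
        exact decide_eq_true hi
      have h6 : ((List.range k).map (fun x => l.length + x)).filter
          (fun i => decide (i < l.length)) = [] := by
        rw [List.filter_eq_nil_iff]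
        intro i hi
        rw [List.mem_map] at hi
        obtain ⟨j, _, rfl⟩ := hi
        simp
      rw [h5, h6, List.append_nil]
    rw [h3]
    refine List.ext_getElem (by simp) fun i hi hi' => ?_
    rw [List.getElem_map, List.getElem_range, tlF_iter_encL, List.drop_eq_getElem_cons hi']
    change d1 ⟨hdF (fr (enc l[i]) ++ encL (l.drop (i + 1)))⟩ = _
    rw [hdF_fr, e1]

end Pool.Agent.Helper73.ETSP
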