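import Pool.Agent.Helper68.ETSP.Mul
import Pool.Agent.Helper68.ETSP.Codec

/-!
# ST-5: binary integers
-/

set_option autoImplicit false

namespace Pool.Agent.Helper73.ETSP

open N68a2faeb Pool.Agent.Helper36.PT

variable {α β γ : Type} [Enc α] [Enc β] [Enc γ]

theorem enc_bz (z : BZ) : enc z = enc (BN.mk z.val.toNat, BN.mk (-z.val).toNat) := rfl

/-- A function with values in the integers is computable in polynomial time if the positive and
the negative parts of its values are. -/
theorem PolyTime.toBZ {f : α → BZ} (h1 : PolyTime (fun a => BN.mk (f a).val.toNat))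
    (h2 : PolyTime (fun a => BN.mk (-(f a).val).toNat)) : PolyTime f := by
  obtain ⟨p, d, h⟩ := h1.pair h2
  exact ⟨p, d, h⟩

theorem PolyTime.ofBZ {f : α → BZ} (hf : PolyTime f) :
    PolyTime (fun a => (BN.mk (f a).val.toNat, BN.mk (-(f a).val).toNat)) := by
  obtain ⟨p, d, h⟩ := hf
  exact ⟨p, d, h⟩

@[fun_prop] theorem PolyTime.bzToNat {f : α → BZ} (hf : PolyTime f) :
    PolyTime (fun a => BN.mk (f a).val.toNat) := PolyTime.fst.comp (PolyTime.ofBZ hf)

theorem PolyTime.bzNegToNat {f : α → BZ} (hf : PolyTime f) :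
    PolyTime (fun a => BN.mk (-(f a).val).toNat) := PolyTime.snd.comp (PolyTime.ofBZ hf)

/-- the difference of two natural numbers -/
@[fun_prop] theorem PolyTime.bzDiff {f g : α → BN} (hf : PolyTime f) (hg : PolyTime g) :
    PolyTime (fun a => BZ.mk (((f a).val : ℤ) - ((g a).val : ℤ))) := by
  refine PolyTime.toBZ ?_ ?_
  · refine (PolyTime.bnSub hf hg).congr fun a => ?_
    congr 1
    dsimp only
    omega
  · refine (PolyTime.bnSub hg hf).congr fun a => ?_
    congr 1
    dsimp only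
    omega

@[fun_prop] theorem PolyTime.bzOfNat {f : α → BN} (hf : PolyTime f) :
    PolyTime (fun a => BZ.mk ((f a).val : ℤ)) := by
  refine PolyTime.toBZ ?_ ?_
  · exact hf.congr fun a => rfl
  · refine (PolyTime.const (BN.mk 0)).congr fun a => ?_
    congr 1
    simp

@[fun_prop] theorem PolyTime.bzNatAbs {f : α → BZ} (hf : PolyTime f) :
    PolyTime (fun a => BN.mk (f a).val.natAbs) := by
  refine (PolyTime.bnAdd (PolyTime.bzToNat hf) (PolyTime.bzNegToNat hf)).congr fun a => ?_
  congr 1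
  dsimp only
  omega

@[fun_prop] theorem PolyTime.bzNeg {f : α → BZ} (hf : PolyTime f) :
    PolyTime (fun a => BZ.mk (-(f a).val)) := by
  refine PolyTime.toBZ (PolyTime.bzNegToNat hf) ?_
  refine (PolyTime.bzToNat hf).congr fun a => ?_
  congr 2
  dsimp only
  omega

@[fun_prop] theorem PolyTime.bzAdd {f g : α → BZ} (hf : PolyTime f) (hg : PolyTime g) :
    PolyTime (fun a => BZ.mk ((f a).val + (g a).val)) := by
  refine (PolyTime.bzDiff (PolyTime.bnAdd (PolyTime.bzToNat hf) (PolyTime.bzToNat hg))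
    (PolyTime.bnAdd (PolyTime.bzNegToNat hf) (PolyTime.bzNegToNat hg))).congr fun a => ?_
  congr 1
  dsimp only
  omega

@[fun_prop] theorem PolyTime.bzSub {f g : α → BZ} (hf : PolyTime f) (hg : PolyTime g) :
    PolyTime (fun a => BZ.mk ((f a).val - (g a).val)) := by
  refine (PolyTime.bzAdd hf (PolyTime.bzNeg hg)).congr fun a => ?_
  congr 1

@[fun_prop] theorem PolyTime.bzMul {f g : α → BZ} (hf : PolyTime f) (hg : PolyTime g) :
    PolyTime (fun a => BZ.mk ((f a).val * (g a).val)) := by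
  refine (PolyTime.bzDiff
    (PolyTime.bnAdd (PolyTime.bnMul (PolyTime.bzToNat hf) (PolyTime.bzToNat hg))
      (PolyTime.bnMul (PolyTime.bzNegToNat hf) (PolyTime.bzNegToNat hg)))
    (PolyTime.bnAdd (PolyTime.bnMul (PolyTime.bzToNat hf) (PolyTime.bzNegToNat hg))
      (PolyTime.bnMul (PolyTime.bzNegToNat hf) (PolyTime.bzToNat hg)))).congr fun a => ?_
  congr 1
  have h1 : (((f a).val.toNat : ℕ) : ℤ) - ((-(f a).val).toNat : ℕ) = (f a).val := by omega
  have h2 : (((g a).val.toNat : ℕ) : ℤ) - ((-(g a).val).toNat : ℕ) = (g a).val := by omega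
  conv_rhs => rw [← h1, ← h2]
  push_cast
  ring

@[fun_prop] theorem PolyTime.pBzLe {f g : α → BZ} (hf : PolyTime f) (hg : PolyTime g) :
    PolyTime (fun a => (f a).val ≤ (g a).val) := by
  refine (PolyTime.pBnLe (PolyTime.bnAdd (PolyTime.bzToNat hf) (PolyTime.bzNegToNat hg))
    (PolyTime.bnAdd (PolyTime.bzToNat hg) (PolyTime.bzNegToNat hf))).congr fun a => ?_
  dsimp only
  refine propext ?_
  omega

/-- size -/
theorem esz_bz (z : ℤ) : esz (BZ.mk z) = 2 * esz (BN.mk z.toNat) + 1 + esz (BN.mk (-z).toNat) :=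
  esz_pair (BN.mk z.toNat) (BN.mk (-z).toNat)

instance : InjEnc BZ := ⟨fun z w h => by
  have h1 : (BN.mk z.val.toNat, BN.mk (-z.val).toNat) = (BN.mk w.val.toNat, BN.mk (-w.val).toNat) :=
    InjEnc.inj (α := BN × BN) h
  have h2 : z.val.toNat = w.val.toNat := congrArg (fun p : BN × BN => p.1.val) h1
  have h3 : (-z.val).toNat = (-w.val).toNat := congrArg (fun p : BN × BN => p.2.val) h1
  cases z
  cases w
  congr 1
  dsimp only at h2 h3
  omega⟩

instance : Dec BZ := by
  obtain ⟨d, hd, ed⟩ := Dec.out (α := BN × BN)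
  refine ⟨fun w => BZ.mk (((d w).1.val : ℤ) - ((d w).2.val : ℤ)),
    PolyTime.bzDiff (PolyTime.fst.comp hd) (PolyTime.snd.comp hd), fun z => ?_⟩
  have h1 : d ⟨enc z⟩ = (BN.mk z.val.toNat, BN.mk (-z.val).toNat) :=
    ed (BN.mk z.val.toNat, BN.mk (-z.val).toNat)
  dsimp only
  rw [h1]
  cases z
  congr 1
  dsimp only
  omega

end Pool.Agent.Helper73.ETSP
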