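import Pool.Agent.Helper31.ETSP.Add

/-!
# ST-4: truncated subtraction and multiplication of binary natural numbers
-/

set_option autoImplicit false

namespace Pool.Agent.Helper73.ETSP

open N68a2faeb Pool.Agent.Helper36.PT

variable {α β γ : Type} [Enc α] [Enc β] [Enc γ]

theorem sum_testBit (m n : ℕ) :
    ∑ i ∈ Finset.range n, (m.testBit i).toNat * 2 ^ i = m % 2 ^ n := by
  induction n with
  | zero => simp [Nat.mod_one]
  | succ n ih =>
    rw [Finset.sum_range_succ, ih, Nat.mod_pow_succ, Nat.testBit_eq_decide_div_mod_eq]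
    rcases Nat.mod_two_eq_zero_or_one (m / 2 ^ n) with h | h
    · rw [h]
      simp
    · rw [h]
      simp

theorem sum_not_testBit (m n : ℕ) (h : m < 2 ^ n) :
    m + ∑ i ∈ Finset.range n, (!(m.testBit i)).toNat * 2 ^ i + 1 = 2 ^ n := by
  have h1 : ∑ i ∈ Finset.range n, (m.testBit i).toNat * 2 ^ i = m := by
    rw [sum_testBit, Nat.mod_eq_of_lt h]
  have h2 : ∑ i ∈ Finset.range n, (m.testBit i).toNat * 2 ^ i +
      ∑ i ∈ Finset.range n, (!(m.testBit i)).toNat * 2 ^ i =
      ∑ i ∈ Finset.range n, 2 ^ i := by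
    rw [← Finset.sum_add_distrib]
    refine Finset.sum_congr rfl fun i _ => ?_
    cases m.testBit i <;> simp
  rw [h1] at h2
  have h3 : ∀ k : ℕ, ∑ i ∈ Finset.range k, 2 ^ i + 1 = 2 ^ k := by
    intro k
    induction k with
    | zero => rfl
    | succ k ih =>
      rw [Finset.sum_range_succ, pow_succ]
      omega
  rw [h2, h3]

theorem PolyTime.bnModPow {f : α → BN} {n : α → ℕ} (hf : PolyTime f)
    (hn : PolyTime n) : PolyTime (fun a => BN.mk ((f a).val % 2 ^ (n a))) := by
  have h : PolyTime (fun a => BN.mk (∑ i ∈ Finset.range (n a),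
      ((f a).val.testBit i).toNat * 2 ^ i)) :=
    PolyTime.bnOfBits (c := fun a i => (f a).val.testBit i) hn
      (PolyTime.bnTestBit (hf.comp PolyTime.fst) PolyTime.snd)
  refine h.congr fun a => ?_
  rw [sum_testBit]

theorem PolyTime.bnShift {f : α → BN} {n : α → ℕ} (hf : PolyTime f)
    (hn : PolyTime n) : PolyTime (fun a => BN.mk ((f a).val * 2 ^ (n a))) := by
  have hs : PolyTime (fun a => (f a).val.size) := PolyTime.bnSize hf
  have h0 : PolyTime (fun p : α × ℕ => (f p.1).val.testBit (p.2 - n p.1)) :=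
    PolyTime.bnTestBit (hf.comp PolyTime.fst)
      (PolyTime.sub PolyTime.snd (hn.comp PolyTime.fst))
  have h : PolyTime (fun a => BN.mk (∑ i ∈ Finset.range ((f a).val.size + n a),
      (decide (n a ≤ i) && (f a).val.testBit (i - n a)).toNat * 2 ^ i)) :=
    PolyTime.bnOfBits (c := fun a i => decide (n a ≤ i) && (f a).val.testBit (i - n a))
      (PolyTime.add hs hn) (PolyTime.and' (PolyTime.decide (PolyTime.pLe
        (hn.comp PolyTime.fst) PolyTime.snd)) h0)
  refine h.congr fun a => ?_
  have h1 : ∀ i, (decide (n a ≤ i) && (f a).val.testBit (i - n a)) =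
      ((f a).val * 2 ^ (n a)).testBit i := by
    intro i
    rw [Nat.testBit_mul_two_pow]
  simp_rw [h1]
  rw [sum_testBit, Nat.mod_eq_of_lt]
  rw [pow_add]
  exact Nat.mul_lt_mul_of_pos_right (Nat.lt_size_self _) (by positivity)

@[fun_prop] theorem PolyTime.bnSub {f g : α → BN} (hf : PolyTime f) (hg : PolyTime g) :
    PolyTime (fun a => BN.mk ((f a).val - (g a).val)) := by
  classical
  have h1 : PolyTime (fun a => BN.mk (∑ i ∈ Finset.range (f a).val.size,
      (!((g a).val.testBit i)).toNat * 2 ^ i)) :=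
    PolyTime.bnOfBits (c := fun a i => !((g a).val.testBit i)) (PolyTime.bnSize hf)
      (PolyTime.not' (PolyTime.bnTestBit (hg.comp PolyTime.fst) PolyTime.snd))
  have h3 := PolyTime.bnAdd (PolyTime.bnAdd hf h1) (PolyTime.const (BN.mk 1))
  have h4 := PolyTime.bnModPow h3 (PolyTime.bnSize hf)
  have h5 := PolyTime.ite' (PolyTime.pBnLt hf hg) (PolyTime.const (BN.mk 0)) h4
  refine h5.congr fun a => ?_
  by_cases h : (f a).val < (g a).val
  · simp only [h, if_true]
    rw [Nat.sub_eq_zero_of_le h.le]
  · simp only [h, if_false]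
    push Not at h
    have hs : (f a).val < 2 ^ (f a).val.size := Nat.lt_size_self _
    have h6 := sum_not_testBit (g a).val (f a).val.size (lt_of_le_of_lt h hs)
    congr 1
    generalize ∑ i ∈ Finset.range (f a).val.size, (!((g a).val.testBit i)).toNat * 2 ^ i = s at *
    have h7 : (f a).val + s + 1 = ((f a).val - (g a).val) + 2 ^ (f a).val.size := by omega
    rw [h7, Nat.add_mod_right, Nat.mod_eq_of_lt (by omega)]

theorem sum_shift (m k : ℕ) : ∀ n, ((List.range n).map (fun i =>
    if m.testBit i = true then k * 2 ^ i else 0)).sum =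
      (∑ i ∈ Finset.range n, (m.testBit i).toNat * 2 ^ i) * k := by
  intro n
  induction n with
  | zero => simp
  | succ n ih =>
    rw [List.range_succ, List.map_append, List.sum_append, ih, Finset.sum_range_succ, add_mul]
    congr 1
    cases h : m.testBit n <;> simp [h, mul_comm]

@[fun_prop] theorem PolyTime.bnMul {f g : α → BN} (hf : PolyTime f) (hg : PolyTime g) :
    PolyTime (fun a => BN.mk ((f a).val * (g a).val)) := by
  classical
  have h0 : PolyTime (fun p : α × ℕ => BN.mk ((g p.1).val * 2 ^ p.2)) :=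
    PolyTime.bnShift (hg.comp PolyTime.fst) PolyTime.snd
  have h1 : PolyTime (fun p : α × ℕ => if (f p.1).val.testBit p.2 = true then
      BN.mk ((g p.1).val * 2 ^ p.2) else BN.mk 0) :=
    PolyTime.ite' (PolyTime.pBool (PolyTime.bnTestBit (hf.comp PolyTime.fst) PolyTime.snd)) h0
      (PolyTime.const _)
  have h2 : PolyTime (fun a => (List.range (f a).val.size).map (fun i =>
      if (f a).val.testBit i = true then BN.mk ((g a).val * 2 ^ i) else BN.mk 0)) :=
    PolyTime.map (f := fun a i => if (f a).val.testBit i = true then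
      BN.mk ((g a).val * 2 ^ i) else BN.mk 0) (PolyTime.range (PolyTime.bnSize hf)) h1
  refine (PolyTime.bnSum h2).congr fun a => ?_
  congr 1
  rw [List.map_map]
  have h3 : (BN.val ∘ fun i => if (f a).val.testBit i = true then BN.mk ((g a).val * 2 ^ i) else
      BN.mk 0) = fun i => if (f a).val.testBit i = true then (g a).val * 2 ^ i else 0 := by
    funext i
    simp only [Function.comp]
    split_ifs <;> rfl
  rw [h3, sum_shift, sum_testBit, Nat.mod_eq_of_lt (Nat.lt_size_self _)]

end Pool.Agent.Helper73.ETSP
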